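import Pool.Agent.X39.Near.Ax
import Pool.Agent.X39.Near.DepInt
import Pool.Agent.X39.Near.MasterI
import Pool.Agent.X255.RH.LogR

/-!
# Logarithms of the values of polynomials at ALL algebraic numbers close to any number outside a set of dimension zero

It is not known whether there are two algebraically independent logarithms of algebraic numbers. We prove, outside ONE set
`E` of complex numbers of Hausdorff dimension `0` (for all polynomials, number fields, degrees and scales): for every complex
`x` and all polynomials `p_1, …, p_s` with algebraic coefficients, multiplicatively independent modulo constants (for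
instance `X`, `X + 1`, …), the logarithms `log p_1 (t)`, …, `log p_s (t)`, for ALL algebraic `t` in a number field close to
`x`, satisfy no relation of bounded degree with coefficients of polynomial size, even approximately. The coefficients may be
polynomials in arbitrary constants `ξ_1, …, ξ_g` fixed in advance, for instance `log 2` and `π`. In particular nonzero
integral polynomials `P` of degree at most `d` and of height at most `T ^ A` satisfy
`|P (log p_1 (t), …, log p_s (t))| > T ^ (-B)`. So for all `s`, `d` and `A` there are `s` logarithms of algebraic numbers of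
height about `T` which satisfy no relation of degree at most `d` and of height at most `T ^ A`.

Proof: the logarithms of the polynomials are algebraically independent functions; the levels of the library give, on compact
sets, at most `C T ^ ε` exceptional points of height `T`, for every `ε > 0`, and so a limsup set of dimension `0`
(`Pool.Agent.X39.Near`); all polynomials and all branches of the logarithms are treated at the same time.
-/

set_option autoImplicit false

open MvPolynomial NumberField

namespace Pool.Agent.Results.MP_16b26a_nt.ApproximationsOfAllNumbers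

open Pool.Agent.X39.Near (Size Dep Br BrD)

/-- The polynomials are multiplicatively independent modulo constants. -/
def Independent {s : ℕ} (p : Fin s → Polynomial ℂ) : Prop :=
  ∀ (m n : Fin s → ℕ) (c : ℂ), ∏ k, p k ^ m k = Polynomial.C c * ∏ k, p k ^ n k → m = n

/-- The polynomials have algebraic coefficients. -/
def AlgebraicCoefficients {s : ℕ} (p : Fin s → Polynomial ℂ) : Prop := ∀ k i, IsAlgebraic ℚ ((p k).coeff i)

/-- There is no relation between the numbers `v`: (1) in the sense of `Dep`, (2) for integral polynomials. -/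
def NoRelation {s g : ℕ} (v : Fin s → ℂ) (ξ : Fin g → ℂ) (F : Type) [Field F] [NumberField F] (ι : F →+* ℂ)
    (d A : ℕ) (B T : ℝ) : Prop :=
  ¬ Dep v ξ F ι d A B T ∧
  ∀ P : MvPolynomial (Fin s) ℤ, P ≠ 0 → (∀ j, P.degreeOf j ≤ d) →
    (∀ e, |((P.coeff e : ℤ) : ℝ)| ≤ T ^ A) → T ^ (-B) < ‖aeval v P‖

theorem p_ne {s : ℕ} {p : Fin s → Polynomial ℂ} (hp : Independent p) (k : Fin s) : p k ≠ 0 := by
  classical
  intro h0
  have h1 := hp (fun j => if j = k then 1 else 0) (fun j => if j = k then 2 else 0) 1 (by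
    rw [Finset.prod_eq_zero (Finset.mem_univ k) (by simp [h0]), Finset.prod_eq_zero (Finset.mem_univ k) (by simp [h0]),
      mul_zero])
  have h2 := congrFun h1 k
  simp at h2

/-- the domain of the branch -/
def dom {s : ℕ} (p : Fin s → Polynomial ℂ) (b : Fin s → ℤ) : Set ℂ := {z | ∀ k, (p k).eval z ∈ BrD (b k)}

theorem dom_open {s : ℕ} (p : Fin s → Polynomial ℂ) (b : Fin s → ℤ) : IsOpen (dom p b) := by
  have h1 : dom p b = ⋂ k, (fun z => (p k).eval z) ⁻¹' BrD (b k) := by
    ext z
    simp [dom]
  rw [h1]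
  exact isOpen_iInter_of_finite fun k => (Pool.Agent.X39.Near.BrD_open _).preimage (p k).continuous

theorem br_an {s : ℕ} (p : Fin s → Polynomial ℂ) (b : Fin s → ℤ) (k : Fin s) {z : ℂ} (hz : z ∈ dom p b) :
    AnalyticAt ℂ (fun z => Br (b k) ((p k).eval z)) z :=
  AnalyticAt.fun_comp (g := Br (b k)) (f := fun z => (p k).eval z) (Pool.Agent.X39.Near.Br_an (hz k))
    ((p k).differentiable.analyticAt z)

theorem br_ind {s : ℕ} {p : Fin s → Polynomial ℂ} (hp : Independent p) (b : Fin s → ℤ) {t : ℂ} (ht : t ∈ dom p b) :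
    Pool.Agent.Y124.LocInd (fun k z => Br (b k) ((p k).eval z)) t := by
  obtain ⟨r, hr, hball⟩ := Metric.isOpen_iff.1 (dom_open p b) t ht
  have han : ∀ k, AnalyticOnNhd ℂ (fun z => Br (b k) ((p k).eval z)) (Metric.ball t r) :=
    fun k z hz => br_an p b k (hball hz)
  have hind : Pool.Agent.X255.RH.Indep (Metric.ball t r) (fun k z => Br (b k) ((p k).eval z)) := by
    refine Pool.Agent.X255.RH.logR_indep (convex_ball _ _).isPreconnected Metric.isOpen_ball
      (Metric.nonempty_ball.2 hr) p (fun _ => 1) (p_ne hp) (fun _ => one_ne_zero) (fun m n c h => ?_) _ han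
      fun k z hz => ?_
    · apply hp m n c
      simpa using h
    · rw [Pool.Agent.X39.Near.exp_Br (hball hz k)]
      simp
  exact Pool.Agent.X39.Near.locInd_of (convex_ball _ _).isPreconnected _ (fun i z hz => han i z hz)
    (Pool.Agent.X39.Near.aindep_of_indep hind) t (Metric.mem_ball_self hr)

/-- the index set -/
def Ix : Type := Σ s : ℕ, {p : Fin s → Polynomial ℂ // AlgebraicCoefficients p} × (Fin s → ℤ)

instance : Countable Ix := by
  have h1 : Countable {z : ℂ // IsAlgebraic ℚ z} := (Algebraic.countable ℚ ℂ).to_subtype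
  have h2 : ∀ s : ℕ, Countable {p : Fin s → Polynomial ℂ // AlgebraicCoefficients p} := by
    intro s
    have h3 : Function.Injective (fun p : {p : Fin s → Polynomial ℂ // AlgebraicCoefficients p} =>
        (fun k => (⟨(p.1 k).natDegree, fun i => ⟨(p.1 k).coeff i, p.2 k i⟩⟩ :
          Σ n : ℕ, Fin (n + 1) → {z : ℂ // IsAlgebraic ℚ z}))) := by
      intro p q h
      apply Subtype.ext
      funext k
      have h4 := congrFun h k
      have h5 : (p.1 k).natDegree = (q.1 k).natDegree := congrArg Sigma.fst h4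
      have h6 : ∀ x y : (Σ n : ℕ, Fin (n + 1) → {z : ℂ // IsAlgebraic ℚ z}), x = y →
          ∀ i : ℕ, (if hi : i < x.1 + 1 then ((x.2 ⟨i, hi⟩ : {z : ℂ // IsAlgebraic ℚ z}) : ℂ) else 0) =
            (if hi : i < y.1 + 1 then ((y.2 ⟨i, hi⟩ : {z : ℂ // IsAlgebraic ℚ z}) : ℂ) else 0) := by
        rintro x y rfl i
        rfl
      refine Polynomial.ext fun i => ?_
      have h7 := h6 _ _ h4 i
      by_cases hi : i < (p.1 k).natDegree + 1
      · simp only [hi, h5 ▸ hi, dif_pos] at h7
        exact h7
      · rw [Polynomial.coeff_eq_zero_of_natDegree_lt (by omega), Polynomial.coeff_eq_zero_of_natDegree_lt (by omega)]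
    exact h3.countable
  unfold Ix
  infer_instance

/-- **Theorem.** Let `ξ_1, …, ξ_g` be complex numbers. There is a set `E` of complex numbers of Hausdorff dimension `0` such
that for all `x` outside `E`, all polynomials `p_1, …, p_s` with algebraic coefficients, multiplicatively independent modulo
constants, all `l_1, …, l_s` with `exp l_k = p_k (x)`, all number fields `F` with an embedding `ι` in `ℂ`, all `d`, `A` and
`ω > 0` there are `B`, `T₁` such that for all `T ≥ T₁` and all `t ∈ F`, quotients of integers with conjugates at most `T`,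
with `|ι t - x| ≤ T ^ (-ω)`, there is no relation between the logarithms `ℓ_k` of `p_k (ι t)` with `|ℓ_k - l_k| < 1`. -/
theorem result {g : ℕ} (ξ : Fin g → ℂ) :
    ∃ E : Set ℂ, dimH E = 0 ∧ ∀ x : ℂ, x ∉ E → ∀ (s : ℕ) (p : Fin s → Polynomial ℂ), AlgebraicCoefficients p →
      Independent p → ∀ l : Fin s → ℂ, (∀ k, Complex.exp (l k) = (p k).eval x) →
      ∀ (F : Type) [Field F] [NumberField F] (ι : F →+* ℂ) (d A : ℕ) (ω : ℝ), 0 < ω → ∃ B T₁ : ℝ, ∀ T : ℝ, T₁ ≤ T →
        ∀ t : F, Size F T t → ‖ι t - x‖ ≤ T ^ (-ω) → ∀ ℓ : Fin s → ℂ, (∀ k, Complex.exp (ℓ k) = (p k).eval (ι t)) →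
          (∀ k, ‖ℓ k - l k‖ < 1) → NoRelation ℓ ξ F ι d A B T := by
  classical
  have H : ∀ i : Ix, ∃ E : Set ℂ, dimH E = 0 ∧ (Independent i.2.1.1 → ∀ x ∈ dom i.2.1.1 i.2.2, x ∉ E →
      ∀ (F : Type) [Field F] [NumberField F] (ι : F →+* ℂ) (d A : ℕ) (ω : ℝ), 0 < ω → ∃ B T₁ : ℝ, ∀ T : ℝ, T₁ ≤ T →
        ∀ t : F, Size F T t → ‖ι t - x‖ ≤ T ^ (-ω) →
          ¬ Dep (fun k => Br (i.2.2 k) ((i.2.1.1 k).eval (ι t))) ξ F ι d A B T) := by
    intro i
    by_cases hi : Independent i.2.1.1
    · obtain ⟨E, h1, h2, -⟩ := Pool.Agent.X39.Near.near_dep (dom i.2.1.1 i.2.2) (dom_open _ _)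
        (fun k z => Br (i.2.2 k) ((i.2.1.1 k).eval z)) (fun k z hz => br_an _ _ k hz) (fun z hz => br_ind hi _ hz) ξ
      exact ⟨E, h1, fun _ => h2⟩
    · exact ⟨∅, dimH_empty, fun h => absurd h hi⟩
  choose E hE0 hE using H
  refine ⟨⋃ i, E i, by rw [dimH_iUnion]; simp [hE0], fun x hx s p hpa hp l hl F _ _ ι d A ω hω => ?_⟩
  choose b hb using fun k => Pool.Agent.X39.Near.exists_br (l k)
  have hdom : x ∈ dom p b := by
    intro k
    have h1 := (Pool.Agent.X39.Near.Br_eq (hb k (l k) (by simp))).1
    rwa [hl] at h1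
  obtain ⟨B, T₁, h2⟩ := hE ⟨s, ⟨p, hpa⟩, b⟩ hp x hdom (fun h => hx (Set.mem_iUnion.2 ⟨_, h⟩)) F ι d A ω hω
  refine ⟨B, max T₁ 1, fun T hT t ht htx ℓ hℓ hℓl => ?_⟩
  have h3 : (fun k => Br (b k) ((p k).eval (ι t))) = ℓ := by
    funext k
    rw [← hℓ k]
    exact (Pool.Agent.X39.Near.Br_eq (hb k (ℓ k) (hℓl k))).2
  have h4 : ¬ Dep ℓ ξ F ι d A B T := by
    have h5 := h2 T ((le_max_left _ _).trans hT) t ht htx
    change ¬ Dep (fun k => Br (b k) ((p k).eval (ι t))) ξ F ι d A B T at h5
    rwa [h3] at h5
  have hT0 : 0 < T := lt_of_lt_of_le one_pos ((le_max_right _ _).trans hT)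
  exact ⟨h4, fun P hP hPd hPA => Pool.Agent.X39.Near.int_of_not_dep h4 hT0 P hP hPd fun e => by
      exact_mod_cast hPA e⟩

end Pool.Agent.Results.MP_16b26a_nt.ApproximationsOfAllNumbers
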